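import Mathlib

set_option autoImplicit false

namespace Pool.Agent.MP_291af2_co

/-- A standard Young tableau whose shape has at most `k` rows. The cell `(i, j)` is in row `i` and
column `j`; the filling is extended by zero outside the shape. -/
structure SYT (k : ℕ) where
  shape : YoungDiagram
  entry : ℕ × ℕ → ℕ
  rows_le : shape.colLen 0 ≤ k
  bijOn : Set.BijOn entry (shape.cells : Set (ℕ × ℕ)) (Set.Icc 1 shape.cells.card)
  row_strict : ∀ i j₁ j₂ : ℕ, j₁ < j₂ → (i, j₂) ∈ shape → entry (i, j₁) < entry (i, j₂)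
  col_strict : ∀ i₁ i₂ j : ℕ, i₁ < i₂ → (i₂, j) ∈ shape → entry (i₁, j) < entry (i₂, j)
  zeros : ∀ c : ℕ × ℕ, c ∉ shape → entry c = 0

/-- `T'` has one cell more than `T` and contains `T`. -/
def IsChild {k : ℕ} (T T' : SYT k) : Prop :=
  T'.shape.cells.card = T.shape.cells.card + 1 ∧ T.shape ≤ T'.shape ∧
    ∀ c ∈ T.shape, T'.entry c = T.entry c

/-- The tree of standard Young tableaux with at most `k` rows. -/
def sytTree (k : ℕ) : SimpleGraph (SYT k) := SimpleGraph.fromRel IsChild

end Pool.Agent.MP_291af2_co
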